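import Pool.Agent.Lib.MP_562b47_mp.RD.InstA
import Pool.Agent.Lib.MP_562b47_mp.LG.Reg
import Pool.Agent.Lib.MP_562b47_mp.EC.Small

/-!
MP_562b47, dimension `d`, bridge: the instance satisfies `LG.Quant`, `LG.Nb` and `EC.EHyp`.
-/

open Finset Matrix

set_option linter.unusedSectionVars false

namespace Pool.Agent.Lib.MP_562b47_mp.RD

open Pool.Agent.Lib.MP_562b47_mp.GD Pool.Agent.Lib.MP_562b47_mp.WO Pool.Agent.Lib.MP_562b47_mp

/-- bound of the row sums -/
noncomputable def Gd.al {d : ℕ} {c : ℝ} (G : Gd d c) : ℝ := c + |G.v| + 2 * d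

/-- lower bound of the strength, at most one -/
noncomputable def Gd.glo {d : ℕ} {c : ℝ} (G : Gd d c) (N : ℕ) : ℝ := min 1 (G.gl N)

theorem Gd.d_ge {d : ℕ} {c : ℝ} (G : Gd d c) : (2 : ℝ) ≤ d := by exact_mod_cast G.hd

theorem Gd.nQ_ge {d : ℕ} {c : ℝ} (G : Gd d c) (N : ℕ) : 1 ≤ G.nQ N := by
  have h1 := G.b_ge
  unfold Gd.nQ
  have h2 : (1 : ℝ) ≤ 2 * (G.b : ℝ) * N + 1 := by
    have : (0 : ℝ) ≤ 2 * (G.b : ℝ) * N := by positivity
    linarith
  exact one_le_pow₀ h2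

theorem Gd.Rb_ge {d : ℕ} {c : ℝ} (G : Gd d c) (N : ℕ) : 1 ≤ G.Rb N := by
  unfold Gd.Rb
  apply Real.one_le_exp
  have : 0 ≤ G.C := by linarith [G.C_ge]
  positivity

theorem Gd.glo_pos {d : ℕ} {c : ℝ} (G : Gd d c) (N : ℕ) : 0 < G.glo N :=
  lt_min one_pos (G.gl_pos N)

theorem Gd.glo_le {d : ℕ} {c : ℝ} (G : Gd d c) (N : ℕ) : G.glo N ≤ 1 := min_le_left _ _

namespace Par

variable {d : ℕ} {c : ℝ} {ι : Type*} [Fintype ι] [DecidableEq ι] (P : Par d c ι)

theorem al_ge : 1 ≤ P.G.al := by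
  unfold Gd.al
  linarith [P.c_pos, abs_nonneg P.G.v, P.G.d_ge]

theorem A_apply (x y : ι) : P.A x y =
    (if x = y then 2 * d - P.E else 0) - if adj (P.pos x) (P.pos y) then 1 else 0 := rfl

theorem A_adj {x y : ι} (h : adj (P.pos x) (P.pos y)) : P.A x y = -1 := by
  have hne : x ≠ y := by
    rintro rfl
    exact adj_irrefl h
  rw [A_apply, if_neg hne, if_pos h]
  ring

theorem adj_of {x y : ι} (hne : x ≠ y) (h : P.A x y ≠ 0) : adj (P.pos x) (P.pos y) := by
  by_contra hc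
  apply h
  rw [A_apply, if_neg hne, if_neg hc, sub_zero]

theorem E_bd : |2 * d - P.E| ≤ c + |P.G.v| := by
  have h := P.adm
  unfold Gd.Adm at h
  have h1 : 2 * d - P.E = P.G.v - (P.E - 2 * d + P.G.v) := by ring
  have h2 := abs_sub (P.G.v) (P.E - 2 * d + P.G.v)
  rw [h1]
  linarith [P.G.ρ_pos, P.G.r_pos]

theorem row (x : ι) : ∑ y, |P.A x y| ≤ P.G.al := by
  have h1 : ∀ y, |P.A x y| ≤ (if x = y then |2 * d - P.E| else 0) +
      (if adj (P.pos x) (P.pos y) then 1 else 0) := by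
    intro y
    rw [A_apply]
    refine (abs_sub _ _).trans ?_
    apply add_le_add
    · split_ifs
      · exact le_rfl
      · rw [abs_zero]
    · split_ifs
      · rw [abs_one]
      · rw [abs_zero]
  refine (Finset.sum_le_sum fun y _ => h1 y).trans ?_
  rw [Finset.sum_add_distrib, Finset.sum_ite_eq, if_pos (Finset.mem_univ x), Finset.sum_boole]
  have h2 : ((univ.filter fun y : ι => adj (P.pos x) (P.pos y)).card : ℝ) ≤ 2 * d := by
    have := P.card_nb x
    unfold nb at this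
    exact_mod_cast this
  unfold Gd.al
  linarith [P.E_bd]

theorem card_inn (q : P.Blk) : ((P.sys.inn q).card : ℝ) + 1 ≤ P.G.nQ (P.num q) := by
  refine le_trans ?_ (P.card_Q_le q)
  have hw : P.sys.w q ∉ P.sys.inn q := by
    intro h
    exact ((P.sys.mem_inn).mp h).1 rfl
  have h1 : insert (P.sys.w q) (P.sys.inn q) ⊆ P.sys.Q q := by
    intro x hx
    rcases Finset.mem_insert.mp hx with h | h
    · rw [h]; exact P.sys.w_mem q
    · exact ((P.sys.mem_inn).mp h).2.1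
  have h2 := Finset.card_le_card h1
  rw [Finset.card_insert_of_notMem hw] at h2
  exact_mod_cast h2

theorem card_L (q : P.Blk) : ((P.sys.L q).card : ℝ) ≤ P.G.nQ (P.num q) := by
  refine le_trans ?_ (P.card_Q_le q)
  exact_mod_cast Finset.card_le_card (P.sys.L_sub q)

theorem glo_le_gg {q : P.Blk} {V : ι → ℝ} (h : P.sys.comp q V) :
    P.G.glo (P.num q) ≤ P.sys.gg P.A q V := (min_le_right _ _).trans (P.gg_ge h)

theorem de_le_half (q : P.Blk) : P.de (P.num q) ≤ 1 / 2 := by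
  have h1 : (1 : ℝ) ≤ P.num q := by exact_mod_cast P.one_le_num q
  have h2 : (1 : ℝ) ≤ (P.num q : ℝ) ^ (d + 1) := one_le_pow₀ h1
  have h3 := P.G.C_ge
  have h4 := P.Cw_ge
  have h5 : (1 : ℝ) ≤ P.Cw * (P.num q : ℝ) ^ (d + 1) := by nlinarith
  have h6 : P.de (P.num q) ≤ Real.exp (-1) := by
    unfold de
    exact Real.exp_le_exp.mpr (by linarith)
  have h7 : Real.exp (-1) ≤ 1 / 2 := by
    rw [Real.exp_neg, one_div]
    apply inv_anti₀ (by norm_num)
    have := Real.add_one_le_exp (1 : ℝ)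
    linarith
  linarith

/-- the quantitative hypotheses of the local estimates -/
theorem lgQuant (hes : ∀ j ≤ P.M, 8 * P.G.al ^ 2 * (P.G.Rb (P.N0 + j) * P.G.nQ (P.N0 + j)) ^ 3 *
    P.et j ≤ min P.G.r 1) : LG.Quant P.sys P.A P.G.al (fun j => P.G.Rb (P.N0 + j))
    (fun j => P.G.nQ (P.N0 + j)) (fun j => P.G.glo (P.N0 + j)) where
  row := P.row
  one_α := P.al_ge
  RS_le := fun q _ h x _ y _ => P.RS_le h x y
  card_le := P.card_inn
  one_CI := fun _ => P.G.Rb_ge _
  one_NI := fun _ => P.G.nQ_ge _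
  glo_pos := fun _ => P.G.glo_pos _
  glo_le := fun _ => P.G.glo_le _
  g_ge := fun _ _ h => P.glo_le_gg h
  win_le := fun q x hx => by
    rw [P.win_inn (P.mem_inn'.mp hx)]
    have := P.de_le_half q
    unfold de at this
    linarith
  et_small := fun q => hes (P.cls q) (P.cls_le q)

theorem pos_inj {x y : ι} (h : P.pos x = P.pos y) : x = y := P.inj h

/-- sites near the centre are inner sites -/
theorem near_ctr {q : P.Blk} (hN : 2 ≤ P.N0) {x : ι}
    (h : ∀ j, |P.pos x j - P.pos (P.ctr q) j| ≤ 2) : x ∈ P.sys.qi q := by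
  obtain ⟨x', h1, h2⟩ := P.g2 hN h
  rw [← P.pos_inj h1]
  exact h2

theorem adj_dist {x y : Fin d → ℤ} (h : adj x y) (j : Fin d) : |y j - x j| ≤ 1 := by
  have h1 := step_adj h j
  have h2 : |((y j - x j : ℤ) : ℝ)| ≤ 1 := by
    push_cast
    exact h1
  exact_mod_cast h2

/-- the neighbourhood of the centre -/
theorem lgNb (hN : 2 ≤ P.N0) (b0 : P.Blk) : LG.Nb P.sys P.A b0 where
  near := by
    intro y hy hA
    have h1 : adj (P.pos (P.ctr b0)) (P.pos y) := P.adj_of (Ne.symm hy) hA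
    have d1 := adj_dist h1
    have hq1 : y ∈ P.sys.qi b0 := P.near_ctr hN fun j => (d1 j).trans (by norm_num)
    refine ⟨((P.sys.mem_qi).mp hq1).1, ?_⟩
    intro z hz
    by_cases hyz : y = z
    · rw [← hyz]; exact ((P.sys.mem_qi).mp hq1).1
    · have d2 := adj_dist (P.adj_of hyz hz)
      refine ((P.sys.mem_qi).mp (P.near_ctr hN fun j => ?_)).1
      have t1 := abs_sub_le (P.pos z j) (P.pos y j) (P.pos (P.ctr b0) j)
      have := d1 j
      have := d2 j
      omega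
  nbr := by
    have hd := P.G.hd
    obtain ⟨i⟩ : Nonempty (Fin d) := ⟨⟨0, by omega⟩⟩
    have ha0 : adj (P.pos (P.ctr b0)) (GD.sh (P.pos (P.ctr b0)) i 1) := ⟨i, Or.inl rfl⟩
    obtain ⟨x, h1, h2⟩ := P.g2 (q := b0) hN (y := GD.sh (P.pos (P.ctr b0)) i 1)
      fun j => (adj_dist ha0 j).trans (by norm_num)
    have ha : adj (P.pos (P.ctr b0)) (P.pos x) := by rw [h1]; exact ha0
    refine ⟨x, ?_, ?_⟩
    · rintro rfl
      exact adj_irrefl ha
    · have : P.A x (P.sys.w b0) = -1 := P.A_adj (adj_comm.mp ha)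
      rw [this]; norm_num
  port := by
    intro b hb
    have hL := P.mem_L.mp hb
    have h0 : P.sys.w b0 = P.ctr b0 := rfl
    rw [h0] at hL ⊢
    obtain ⟨hb1, hb2⟩ := mem_prt.mp hL
    rw [mem_bq] at hb1
    rw [RD.mem_qi] at hb2
    -- a direction leading out of the block
    have hdir : ∃ y : Fin d → ℤ, adj (P.pos (P.ctr b0)) y ∧
        rel (P.pos (P.ctr b)) y ∉ bq d (P.rad b) := by
      push Not at hb2
      obtain ⟨j, hj⟩ := hb2
      have h1 := hb1 j
      have hco : P.co b (P.ctr b0) = rel (P.pos (P.ctr b)) (P.pos (P.ctr b0)) := rfl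
      rw [hco] at hj h1
      by_cases h2 : rel (P.pos (P.ctr b)) (P.pos (P.ctr b0)) j = P.rad b
      · refine ⟨GD.sh (P.pos (P.ctr b0)) j 1, ⟨j, Or.inl rfl⟩, ?_⟩
        rw [rel_sh, mem_bq]
        intro h3
        have := h3 j
        rw [sh_self] at this
        omega
      · refine ⟨GD.sh (P.pos (P.ctr b0)) j (-1), ⟨j, Or.inr rfl⟩, ?_⟩
        rw [rel_sh, mem_bq]
        intro h3
        have := h3 j
        rw [sh_self] at this
        omega
    obtain ⟨y, hy1, hy2⟩ := hdir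
    obtain ⟨x, rfl, hx⟩ := P.g2 (q := b0) hN (y := y)
      fun j => (adj_dist hy1 j).trans (by norm_num)
    refine ⟨x, ?_, ?_, ?_⟩
    · rintro rfl
      exact adj_irrefl hy1
    · intro h
      exact hy2 (P.mem_Q.mp h)
    · have : P.A x (P.ctr b0) = -1 := P.A_adj (adj_comm.mp hy1)
      rw [this]; norm_num

/-- smallness of the background needed in a block with parameter `N` -/
def _root_.Pool.Agent.Lib.MP_562b47_mp.RD.Gd.Sm {d : ℕ} {c : ℝ} (G : Gd d c) (N : ℕ) (a : ℝ) :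
    Prop :=
  a * G.nQ N * G.Rb N ≤ 1 / 2 ∧
    G.nQ N * (G.al ^ 2 * (2 * a * G.nQ N * G.Rb N ^ 2)) ^ 2 ≤ G.z ^ (2 * N) / G.C

/-- squared distance of two sites of a block -/
theorem ff_le (q : P.Blk) {x y : ι} (hx : x ∈ P.sys.Q q) (hy : y ∈ P.sys.Q q) :
    AL.ff P.xi x y ≤ d * (2 * ((P.G.b : ℝ) * P.num q)) ^ 2 := by
  rw [P.ff_eq]
  have hb1 := mem_bq.mp (P.mem_Q.mp hx)
  have hb2 := mem_bq.mp (P.mem_Q.mp hy)
  have key : ∀ j, ((P.pos x j : ℝ) - P.pos y j) ^ 2 ≤ (2 * ((P.G.b : ℝ) * P.num q)) ^ 2 := by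
    intro j
    have h1 := hb1 j
    have h2 := hb2 j
    simp only [co, rel] at h1 h2
    have h3 : -(2 * P.rad q) ≤ P.pos x j - P.pos y j ∧ P.pos x j - P.pos y j ≤ 2 * P.rad q := by
      omega
    have h4 : ((P.rad q : ℤ) : ℝ) = P.G.b * (P.num q : ℝ) := P.rad_cast q
    have h5 : -(2 * ((P.rad q : ℤ) : ℝ)) ≤ (P.pos x j : ℝ) - P.pos y j := by exact_mod_cast h3.1
    have h6 : (P.pos x j : ℝ) - P.pos y j ≤ 2 * ((P.rad q : ℤ) : ℝ) := by exact_mod_cast h3.2
    rw [h4] at h5 h6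
    exact sq_le_sq' h5 h6
  refine (Finset.sum_le_sum fun j _ => key j).trans (le_of_eq ?_)
  rw [Finset.sum_const, Finset.card_univ, Fintype.card_fin, nsmul_eq_mul]

/-- the hypotheses of section 5 -/
theorem ecHyp (hN : 2 ≤ P.N0) (hG : WO.Good P.sys P.A) (m : ℕ) {a : ℝ} (ha : 0 < a)
    (hsm : P.G.Sm (P.N0 + m) a) :
    EC.EHyp P.sys P.A P.xi m a (d * (2 * ((P.G.b : ℝ) * (P.N0 + m : ℕ))) ^ 2) where
  sepw := by
    intro b _ y hy hyw
    by_contra hA
    have h1 : adj (P.pos (P.ctr b)) (P.pos y) := P.adj_of (Ne.symm hyw) hA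
    have d1 := adj_dist h1
    have h2 : y ∈ P.sys.qi b := P.near_ctr hN fun j => (d1 j).trans (by norm_num)
    apply hy
    rw [P.sys.mem_inn]
    exact ⟨hyw, (P.sys.mem_qi).mp h2⟩
  phc := by
    intro b V hb hV
    have hnum : P.num b = P.N0 + m := by
      have h1 : P.cls b = m := hb
      unfold num
      rw [h1]
    obtain ⟨s1, s2⟩ := hsm
    rw [← hnum] at s1 s2
    have hc0 := P.card_inn b
    have hcn : (0 : ℝ) ≤ ((P.sys.inn b).card : ℝ) := Nat.cast_nonneg _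
    have hce := P.G.Rb_ge (P.num b)
    have hnq := P.G.nQ_ge (P.num b)
    have hcard : ((P.sys.inn b).card : ℝ) ≤ P.G.nQ (P.num b) := by linarith
    have hal : 0 ≤ P.G.al := zero_le_one.trans P.al_ge
    have h2 := EC.phc_le (R := P.G.Rb (P.num b)) (α := P.G.al) hG hV ha (P.RS_le hV)
      (by
        refine le_trans ?_ s1
        gcongr)
      P.row
      (by
        refine le_trans ?_ (s2.trans (P.sum_ph_ge hV))
        gcongr
        exact P.card_L b)
    rw [← hb]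
    exact h2
  diam := by
    intro b hb x hx
    have hnum : P.num b = P.N0 + m := by
      have h1 : P.cls b = m := hb
      unfold num
      rw [h1]
    rw [← hnum]
    exact P.ff_le b hx (P.sys.w_mem b)
  dm_nonneg := by positivity

end Par

end Pool.Agent.Lib.MP_562b47_mp.RD
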