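import Pool.Agent.Lib.MP_562b47_mp.RD.Start
import Pool.Agent.Lib.MP_562b47_mp.BR.NumT

/-!
MP_562b47, dimension `d`: the smallness of the backgrounds needed in START.  The backgrounds are
`exp (- N ^ (4 d + 4))`.
-/

open Finset

namespace Pool.Agent.Lib.MP_562b47_mp.RD

/-- the exponent of the backgrounds (12 for `d = 2`) -/
def pe (d : ℕ) : ℕ := 4 * d + 4

/-- the backgrounds are small enough for START -/
theorem Gd.exists_et {d : ℕ} {c : ℝ} (G : Gd d c) : ∃ N1 : ℕ, 1 ≤ N1 ∧ ∀ N : ℕ, N1 ≤ N →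
    Real.exp (-((N : ℝ) ^ pe d)) * G.nQ N * G.Rb N ≤ 1 / 2 := by
  have hb := G.b_ge
  set B : ℝ := (2 * (G.b : ℝ) + 1) ^ d with hB
  have hB0 : 0 ≤ B := by positivity
  set A : ℝ := B + d + G.C with hA
  have hd0 : (0 : ℝ) ≤ d := Nat.cast_nonneg d
  have hC := G.C_pos
  obtain ⟨N1, h1, h2⟩ := BR.exp_beats A 1 one_pos (k := d + 1) (l := pe d) (by unfold pe; omega)
    (ε := 1 / 2) (by norm_num)
  refine ⟨N1, h1, fun N hN => le_trans ?_ (h2 N hN)⟩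
  have hN1 : (1 : ℝ) ≤ N := by exact_mod_cast h1.trans hN
  have e1 := G.nQ_le_exp N (h1.trans hN)
  have e2 : Real.exp (d * N) * G.Rb N ≤ Real.exp (A * (N : ℝ) ^ (d + 1)) := by
    unfold Gd.Rb
    rw [← Real.exp_add]
    apply Real.exp_le_exp.mpr
    have p0 : (N : ℝ) ≤ (N : ℝ) ^ (d + 1) := le_self_pow₀ hN1 (by omega)
    have p1 : A * (N : ℝ) ^ (d + 1) = B * (N : ℝ) ^ (d + 1) + d * (N : ℝ) ^ (d + 1) +
        G.C * (N : ℝ) ^ (d + 1) := by rw [hA]; ring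
    have p2 : 0 ≤ B * (N : ℝ) ^ (d + 1) := by positivity
    have p3 : d * (N : ℝ) ≤ d * (N : ℝ) ^ (d + 1) := by gcongr
    linarith
  have e3 : B ≤ A := by rw [hA]; linarith
  have e5 := G.Rb_nonneg N
  calc Real.exp (-((N : ℝ) ^ pe d)) * G.nQ N * G.Rb N
      ≤ Real.exp (-((N : ℝ) ^ pe d)) * (B * Real.exp (d * N)) * G.Rb N := by
        gcongr
    _ = B * (Real.exp (d * N) * G.Rb N) * Real.exp (-((N : ℝ) ^ pe d)) := by
        ring
    _ ≤ A * Real.exp (A * (N : ℝ) ^ (d + 1)) * Real.exp (-(1 * (N : ℝ) ^ pe d)) := by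
        rw [one_mul]
        gcongr

end Pool.Agent.Lib.MP_562b47_mp.RD
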