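import Pool.Agent.Lib.MP_562b47_mp.GD.Gad

/-!
MP_562b47, bridge in dimension `d`: geometry of the blocks.

`pos : ι → (Fin d → ℤ)` are the coordinates of the sites; the block of class `N` centred at the site
`s` has radius `m = b N` and consists of the sites `x` with `rel (pos s) (pos x) ∈ bq d m` (the centre
has relative coordinates `(1, ..., 1)`).  There is a block of every class centred at every site.
Every class has `2 ^ d + 1` port windows: one for each corner and one for the other port sites.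
-/

open Finset

namespace Pool.Agent.Lib.MP_562b47_mp.RD

open Pool.Agent.Lib.MP_562b47_mp.GD

variable {d : ℕ}

/-- coordinates relative to the block with centre `s` -/
def rel (s x : Fin d → ℤ) : Fin d → ℤ := fun j => x j - s j + 1

/-- the block `|x|_∞ ≤ m` -/
noncomputable def bq (d : ℕ) (m : ℤ) : Finset (Fin d → ℤ) := Fintype.piFinset fun _ => Icc (-m) m

/-- corners of the block `|x|_∞ ≤ m` -/
def cor (m : ℤ) (x : Fin d → ℤ) : Prop := ∀ j, x j = m ∨ x j = -m

instance (m : ℤ) : DecidablePred (cor (d := d) m) := fun x => by unfold cor; infer_instance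

/-- the type of a port site -/
noncomputable def ty (m : ℤ) (x : Fin d → ℤ) : ℕ :=
  if cor m x then (Fintype.equivFin (Finset (Fin d)) (univ.filter fun j => x j = m)).val + 1 else 0

theorem ty_lt (m : ℤ) (x : Fin d → ℤ) : ty m x < 2 ^ d + 1 := by
  have hc : Fintype.card (Finset (Fin d)) = 2 ^ d := by rw [Fintype.card_finset, Fintype.card_fin]
  unfold ty
  split_ifs
  · have h := (Fintype.equivFin (Finset (Fin d)) (univ.filter fun j => x j = m)).2
    exact Nat.succ_lt_succ (lt_of_lt_of_eq h hc)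
  · exact Nat.succ_pos _

theorem ty_eq {m : ℤ} {x x' : Fin d → ℤ} (hx : cor m x) (h : ty m x = ty m x') : x = x' := by
  unfold ty at h
  rw [if_pos hx] at h
  by_cases hx' : cor m x'
  · rw [if_pos hx'] at h
    have h1 := (Fintype.equivFin (Finset (Fin d))).injective (Fin.ext (Nat.add_right_cancel h))
    funext j
    have h2 : j ∈ (univ.filter fun j => x j = m) ↔ j ∈ (univ.filter fun j => x' j = m) := by rw [h1]
    simp only [mem_filter, mem_univ, true_and] at h2
    rcases hx j with h3 | h3 <;> rcases hx' j with h4 | h4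
    · rw [h3, h4]
    · rw [h3, h2.1 h3]
    · rw [h4, h2.2 h4]
    · rw [h3, h4]
  · rw [if_neg hx'] at h
    omega

theorem mem_bq {m : ℤ} {x : Fin d → ℤ} : x ∈ bq d m ↔ ∀ j, -m ≤ x j ∧ x j ≤ m := by
  simp [bq, Fintype.mem_piFinset]

theorem mem_qi {m : ℤ} {x : Fin d → ℤ} : x ∈ qi d m ↔ ∀ j, -(m - 1) ≤ x j ∧ x j ≤ m - 1 := by
  simp [qi, Fintype.mem_piFinset]

theorem mem_prt {m : ℤ} {x : Fin d → ℤ} : x ∈ prt d m ↔ x ∈ bq d m ∧ x ∉ qi d m := by
  simp [prt, bq]

theorem mem_inn {m : ℤ} {x : Fin d → ℤ} : x ∈ inn d m ↔ x ≠ 1 ∧ x ∈ qi d m := by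
  simp [inn]

theorem qi_sub (m : ℤ) : qi d m ⊆ bq d m := by
  intro x hx
  rw [mem_qi] at hx
  rw [mem_bq]
  intro j
  have := hx j
  omega

theorem inn_sub (m : ℤ) : inn d m ⊆ bq d m := fun _ hx => qi_sub m (mem_inn.mp hx).2

theorem one_mem_qi {m : ℤ} (hm : 3 ≤ m) : (1 : Fin d → ℤ) ∈ qi d m := by
  rw [mem_qi]
  intro j
  rw [Pi.one_apply]
  omega

theorem one_not_prt {m : ℤ} (hm : 3 ≤ m) : (1 : Fin d → ℤ) ∉ prt d m :=
  fun h => (mem_prt.mp h).2 (one_mem_qi hm)

theorem prt_inn {m : ℤ} {x : Fin d → ℤ} (h : x ∈ inn d m) : x ∉ prt d m := by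
  intro h'
  exact (mem_prt.mp h').2 (mem_inn.mp h).2

theorem bq_cases {m : ℤ} {x : Fin d → ℤ} (h : x ∈ bq d m) :
    x ∈ prt d m ∨ x = 1 ∨ x ∈ inn d m := by
  by_cases h1 : x ∈ qi d m
  · by_cases h2 : x = 1
    · exact Or.inr (Or.inl h2)
    · exact Or.inr (Or.inr (mem_inn.mpr ⟨h2, h1⟩))
  · exact Or.inl (mem_prt.mpr ⟨h, h1⟩)

theorem prt_of {m : ℤ} {x : Fin d → ℤ} (h : x ∈ bq d m) {j : Fin d} (h1 : x j = m ∨ x j = -m) :
    x ∈ prt d m := by
  rw [mem_prt]
  refine ⟨h, fun h2 => ?_⟩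
  have := mem_qi.mp h2 j
  omega

theorem rel_self (s : Fin d → ℤ) : rel s s = 1 := by
  funext j
  simp [rel]

theorem rel_inj {s s' y : Fin d → ℤ} (h : rel s y = rel s' y) : s = s' := by
  funext j
  have := congrFun h j
  simp only [rel] at this
  omega

theorem rel_inj' {s x y : Fin d → ℤ} (h : rel s x = rel s y) : x = y := by
  funext j
  have := congrFun h j
  simp only [rel] at this
  omega

theorem sh_self (x : Fin d → ℤ) (j : Fin d) (t : ℤ) : GD.sh x j t j = x j + t := by
  simp [GD.sh]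

theorem sh_other (x : Fin d → ℤ) {j i : Fin d} (t : ℤ) (h : i ≠ j) : GD.sh x j t i = x i := by
  simp [GD.sh, h]

theorem sh_ne {x : Fin d → ℤ} {j : Fin d} {t : ℤ} (ht : t ≠ 0) : GD.sh x j t ≠ x := by
  intro h
  have := congrFun h j
  rw [sh_self] at this
  omega

theorem sh_val (x : Fin d → ℤ) (j i : Fin d) (t : ℤ) :
    (i = j ∧ GD.sh x j t i = x i + t) ∨ (i ≠ j ∧ GD.sh x j t i = x i) := by
  by_cases h : i = j
  · subst h
    exact Or.inl ⟨rfl, sh_self _ _ _⟩
  · exact Or.inr ⟨h, sh_other _ _ h⟩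

/-- an endpoint of the smaller interval lies in the larger one -/
theorem endpoint {m m' o o' x : ℤ} (hmm : m ≤ m') (h1 : -m ≤ x - o) (h2 : x - o ≤ m)
    (h3 : -m' ≤ x - o') (h4 : x - o' ≤ m') :
    ∃ y, (y - o = m ∨ y - o = -m) ∧ -m' ≤ y - o' ∧ y - o' ≤ m' := by
  rcases le_total o o' with h | h
  · exact ⟨o + m, Or.inl (by ring), by omega, by omega⟩
  · exact ⟨o - m, Or.inr (by ring), by omega, by omega⟩

/-- a corner of the smaller block in the larger one -/
theorem exists_corner {m m' : ℤ} (hmm : m ≤ m') {s s' x : Fin d → ℤ} (hx : rel s x ∈ bq d m)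
    (hx' : rel s' x ∈ bq d m') : ∃ y, cor m (rel s y) ∧ rel s' y ∈ bq d m' := by
  rw [mem_bq] at hx hx'
  have h : ∀ j, ∃ y, (y - (s j - 1) = m ∨ y - (s j - 1) = -m) ∧ -m' ≤ y - (s' j - 1) ∧
      y - (s' j - 1) ≤ m' := by
    intro j
    have h1 := hx j
    have h2 := hx' j
    simp only [rel] at h1 h2
    exact endpoint (x := x j) hmm (by omega) (by omega) (by omega) (by omega)
  choose y h1 h2 h3 using h
  refine ⟨y, fun j => ?_, mem_bq.mpr fun j => ?_⟩
  · have := h1 j
    simp only [rel]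
    omega
  · have := h2 j
    have := h3 j
    simp only [rel]
    omega

/-- the site `y` cannot be in its windows for both blocks -/
def conf (m : ℤ) (s : Fin d → ℤ) (m' : ℤ) (s' y : Fin d → ℤ) : Prop :=
  (rel s y ∈ prt d m ∧ rel s' y ∈ inn d m') ∨ (rel s y ∈ inn d m ∧ rel s' y ∈ prt d m') ∨
    (rel s y ∈ prt d m ∧ rel s' y ∈ prt d m' ∧ (m ≠ m' ∨ ty m (rel s y) ≠ ty m' (rel s' y)))

theorem conf_symm {m m' : ℤ} {s s' y : Fin d → ℤ} (h : conf m s m' s' y) : conf m' s' m s y := by
  rcases h with h | h | ⟨h1, h2, h3⟩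
  · exact Or.inr (Or.inl ⟨h.2, h.1⟩)
  · exact Or.inl ⟨h.2, h.1⟩
  · refine Or.inr (Or.inr ⟨h2, h1, ?_⟩)
    rcases h3 with h3 | h3
    · exact Or.inl (Ne.symm h3)
    · exact Or.inr (Ne.symm h3)

/-- the inward direction at a corner -/
def dir (m : ℤ) (x : Fin d → ℤ) (j : Fin d) : ℤ := if x j = m then -1 else 1

theorem dir_cases (m : ℤ) (x : Fin d → ℤ) (j : Fin d) : dir m x j = 1 ∨ dir m x j = -1 := by
  unfold dir
  split_ifs <;> simp

theorem dir_in {m : ℤ} (hm : 3 ≤ m) {x : Fin d → ℤ} {j : Fin d} (h : x j = m ∨ x j = -m) :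
    (x j = m ∧ dir m x j = -1) ∨ (x j = -m ∧ dir m x j = 1) := by
  unfold dir
  rcases h with h | h
  · rw [if_pos h]
    exact Or.inl ⟨h, rfl⟩
  · rw [if_neg (by omega)]
    exact Or.inr ⟨h, rfl⟩

theorem cor_bq {m : ℤ} (hm : 3 ≤ m) {x : Fin d → ℤ} (h : cor m x) : x ∈ bq d m := by
  rw [mem_bq]
  intro j
  have := h j
  omega

theorem rel_sh (s y : Fin d → ℤ) (j : Fin d) (t : ℤ) : rel s (GD.sh y j t) = GD.sh (rel s y) j t := by
  funext i
  rcases sh_val y j i t with ⟨h1, h2⟩ | ⟨h1, h2⟩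
  · subst h1
    simp only [rel]
    rw [sh_self, sh_self]
    simp only [rel]
    ring
  · simp only [rel]
    rw [h2, sh_other _ _ h1]
    simp only [rel]

/-- the inward neighbours of a corner are port sites -/
theorem nb_prt (hd : 2 ≤ d) {m : ℤ} (hm : 3 ≤ m) {x : Fin d → ℤ} (h : cor m x) (j : Fin d) :
    GD.sh x j (dir m x j) ∈ prt d m := by
  obtain ⟨i, hi⟩ : ∃ i : Fin d, i ≠ j := by
    by_cases h0 : j = ⟨0, by omega⟩
    · exact ⟨⟨1, by omega⟩, by rw [h0]; simp⟩
    · exact ⟨⟨0, by omega⟩, Ne.symm h0⟩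
  refine prt_of (j := i) ?_ ?_
  · rw [mem_bq]
    intro k
    rcases sh_val x j k (dir m x j) with ⟨h1, h2⟩ | ⟨h1, h2⟩
    · subst h1
      rw [h2]
      rcases dir_in hm (h k) with ⟨h3, h4⟩ | ⟨h3, h4⟩ <;> omega
    · rw [h2]
      have := h k
      omega
  · rw [sh_other _ _ hi]
    exact h i

/-- a corner of the smaller block inside the larger one -/
theorem lemA (hd : 2 ≤ d) {m m' : ℤ} (hm : 3 ≤ m) (hmm : m ≤ m') {s s' : Fin d → ℤ}
    (hne : ¬ (m = m' ∧ s = s')) {y : Fin d → ℤ} (hy : cor m (rel s y)) (hy' : rel s' y ∈ bq d m')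
    {e : Fin d → ℤ} (he : y ≠ e) : ∃ y', y' ≠ e ∧ conf m s m' s' y' := by
  have hyp : rel s y ∈ prt d m := prt_of (j := ⟨0, by omega⟩) (cor_bq hm hy) (hy _)
  rcases bq_cases hy' with h | h | h
  · refine ⟨y, he, Or.inr (Or.inr ⟨hyp, h, ?_⟩)⟩
    by_contra hcon
    push Not at hcon
    obtain ⟨rfl, h2⟩ := hcon
    exact hne ⟨rfl, rel_inj (ty_eq hy h2)⟩
  · -- `y` is the centre of the larger block
    have key : ∀ j : Fin d, conf m s m' s' (GD.sh y j (dir m (rel s y) j)) := by
      intro j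
      refine Or.inl ⟨?_, ?_⟩
      · rw [rel_sh]
        exact nb_prt hd hm hy j
      · rw [rel_sh, h, mem_inn, mem_qi]
        refine ⟨?_, ?_⟩
        · exact sh_ne (by rcases dir_cases m (rel s y) j with h1 | h1 <;> omega)
        · intro i
          rcases sh_val (1 : Fin d → ℤ) j i (dir m (rel s y) j) with ⟨-, h2⟩ | ⟨-, h2⟩ <;>
            rw [h2, Pi.one_apply] <;>
            rcases dir_cases m (rel s y) j with h1 | h1 <;> omega
    by_cases hc : GD.sh y ⟨0, by omega⟩ (dir m (rel s y) ⟨0, by omega⟩) = e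
    · refine ⟨_, ?_, key ⟨1, by omega⟩⟩
      rw [← hc]
      intro h1
      have h2 := congrFun h1 ⟨1, by omega⟩
      rw [sh_self, sh_other _ _ (by simp)] at h2
      rcases dir_cases m (rel s y) ⟨1, by omega⟩ with h3 | h3 <;> omega
    · exact ⟨_, hc, key _⟩
  · exact ⟨y, he, Or.inl ⟨hyp, h⟩⟩

/-- the main lemma: if two different blocks share a site `x ≠ e`, there is a conflict at some site
different from `e` -/
theorem main_le (hd : 2 ≤ d) {m m' : ℤ} (hm : 3 ≤ m) (hmm : m ≤ m') {s s' : Fin d → ℤ}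
    (hne : ¬ (m = m' ∧ s = s')) {x e : Fin d → ℤ} (hx : rel s x ∈ bq d m)
    (hx' : rel s' x ∈ bq d m') (hxe : x ≠ e) : ∃ y, y ≠ e ∧ conf m s m' s' y := by
  obtain ⟨y, hy1, hy2⟩ := exists_corner hmm hx hx'
  by_cases hye : y = e
  swap
  · exact lemA hd hm hmm hne hy1 hy2 hye
  subst hye
  rw [mem_bq] at hx hx' hy2
  simp only [rel] at hx hx' hy2
  obtain ⟨j0, hj0⟩ : ∃ j, x j ≠ y j := by
    by_contra hc
    push Not at hc
    exact hxe (funext hc)
  have hc1 : ∀ j, y j - s j + 1 = m ∨ y j - s j + 1 = -m := hy1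
  rcases eq_or_lt_of_le hmm with heq | hlt
  · -- equal sizes: another corner
    subst heq
    by_cases hs : ∃ j, s j = s' j
    · obtain ⟨j, hj⟩ := hs
      refine lemA (y := Function.update y j (2 * (s j - 1) - y j)) hd hm le_rfl hne ?_ ?_ ?_
      · intro i
        simp only [rel]
        by_cases hi : i = j
        · subst hi
          rw [Function.update_self]
          have := hc1 i
          omega
        · rw [Function.update_of_ne hi]
          exact hc1 i
      · rw [mem_bq]
        intro i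
        simp only [rel]
        by_cases hi : i = j
        · subst hi
          rw [Function.update_self]
          have := hc1 i
          omega
        · rw [Function.update_of_ne hi]
          exact hy2 i
      · intro h
        have h1 := congrFun h j
        rw [Function.update_self] at h1
        have := hc1 j
        omega
    · push Not at hs
      have hne' : ¬ (m = m ∧ s' = s) := fun h => hne ⟨rfl, h.2.symm⟩
      obtain ⟨y', hy', hy''⟩ := lemA (s := s') (s' := s)
        (y := fun j => s' j - 1 - (y j - (s j - 1))) (e := y) hd hm le_rfl hne'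
        (by
          intro j
          simp only [rel]
          have := hc1 j
          omega)
        (by
          rw [mem_bq]
          intro j
          simp only [rel]
          have := hy2 j
          omega)
        (by
          intro h
          have h1 : s' j0 - 1 - (y j0 - (s j0 - 1)) = y j0 := congrFun h j0
          have := hc1 j0
          have := hx j0
          have := hx' j0
          omega)
      exact ⟨y', hy', conf_symm hy''⟩
  · -- different sizes: a neighbour of the corner on the ring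
    have key : ∀ y : Fin d → ℤ, rel s y ∈ prt d m → rel s' y ∈ bq d m' → rel s' y ≠ 1 →
        conf m s m' s' y := by
      intro y k1 k2 k3
      rcases bq_cases k2 with h | h | h
      · exact Or.inr (Or.inr ⟨k1, h, Or.inl (by omega)⟩)
      · exact absurd h k3
      · exact Or.inl ⟨k1, h⟩
    have hdir := dir_in hm (hy1 j0)
    simp only [rel] at hdir
    have hb : rel s' (GD.sh y j0 (dir m (rel s y) j0)) ∈ bq d m' := by
      rw [mem_bq]
      intro i
      simp only [rel]
      rcases sh_val y j0 i (dir m (rel s y) j0) with ⟨h1, h2⟩ | ⟨h1, h2⟩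
      · subst h1
        rw [h2]
        have h3 := hx i
        have h4 := hx' i
        have h5 := hy2 i
        rcases hdir with ⟨h6, h7⟩ | ⟨h6, h7⟩
        · have h8 : dir m (rel s y) i = -1 := h7
          omega
        · have h8 : dir m (rel s y) i = 1 := h7
          omega
      · rw [h2]
        exact hy2 i
    by_cases hc : rel s' (GD.sh y j0 (dir m (rel s y) j0)) = 1
    · obtain ⟨i, hi⟩ : ∃ i : Fin d, i ≠ j0 := by
        by_cases h0 : j0 = ⟨0, by omega⟩
        · exact ⟨⟨1, by omega⟩, by rw [h0]; simp⟩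
        · exact ⟨⟨0, by omega⟩, Ne.symm h0⟩
      have hc2 : ∀ k, GD.sh y j0 (dir m (rel s y) j0) k - s' k + 1 = 1 := fun k => congrFun hc k
      have hj := hc2 j0
      rw [sh_self] at hj
      refine ⟨GD.sh y i (dir m (rel s y) i), sh_ne (by
        rcases dir_cases m (rel s y) i with h1 | h1 <;> omega), key _ ?_ ?_ ?_⟩
      · rw [rel_sh]
        exact nb_prt hd hm hy1 i
      · rw [mem_bq]
        intro k
        simp only [rel]
        have hk := hc2 k
        rcases sh_val y i k (dir m (rel s y) i) with ⟨h1, h2⟩ | ⟨h1, h2⟩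
        · subst h1
          rw [h2]
          rw [sh_other _ _ hi] at hk
          rcases dir_cases m (rel s y) k with h3 | h3 <;> omega
        · rw [h2]
          exact hy2 k
      · intro h
        have h1 : GD.sh y i (dir m (rel s y) i) j0 - s' j0 + 1 = 1 := congrFun h j0
        rw [sh_other _ _ (Ne.symm hi)] at h1
        rcases dir_cases m (rel s y) j0 with h3 | h3 <;> omega
    · refine ⟨_, sh_ne (by
        rcases dir_cases m (rel s y) j0 with h1 | h1 <;> omega), key _ ?_ hb hc⟩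
      rw [rel_sh]
      exact nb_prt hd hm hy1 j0

theorem main_conf (hd : 2 ≤ d) {m m' : ℤ} (hm : 3 ≤ m) (hm' : 3 ≤ m') {s s' : Fin d → ℤ}
    (hne : ¬ (m = m' ∧ s = s')) {x e : Fin d → ℤ} (hx : rel s x ∈ bq d m)
    (hx' : rel s' x ∈ bq d m') (hxe : x ≠ e) : ∃ y, y ≠ e ∧ conf m s m' s' y := by
  rcases le_total m m' with h | h
  · exact main_le hd hm h hne hx hx' hxe
  · obtain ⟨y, hy, hy'⟩ := main_le hd hm' h (fun h => hne ⟨h.1.symm, h.2.symm⟩) hx' hx hxe
    exact ⟨y, hy, conf_symm hy'⟩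

/-- if two blocks have exactly one common site, it is a corner -/
theorem single_corner {m m' : ℤ} (hm : 3 ≤ m) (hm' : 3 ≤ m') {s s' e : Fin d → ℤ}
    (he : rel s e ∈ bq d m) (he' : rel s' e ∈ bq d m')
    (h : ∀ x, rel s x ∈ bq d m → rel s' x ∈ bq d m' → x = e) : cor m (rel s e) := by
  rw [mem_bq] at he he'
  intro j
  by_contra hc
  push Not at hc
  obtain ⟨t, ht⟩ : ∃ t : ℤ, (t = 1 ∨ t = -1) ∧ -m' ≤ rel s' e j + t ∧ rel s' e j + t ≤ m' := by
    have := he' j
    by_cases h1 : rel s' e j = m'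
    · exact ⟨-1, by omega⟩
    · exact ⟨1, by omega⟩
  refine sh_ne (x := e) (j := j) (t := t) (by omega) (h _ ?_ ?_)
  · rw [mem_bq, rel_sh]
    intro i
    rcases sh_val (rel s e) j i t with ⟨h1, h2⟩ | ⟨h1, h2⟩
    · subst h1
      rw [h2]
      have := he i
      omega
    · rw [h2]
      exact he i
  · rw [mem_bq, rel_sh]
    intro i
    rcases sh_val (rel s' e) j i t with ⟨h1, h2⟩ | ⟨h1, h2⟩
    · subst h1
      rw [h2]
      omega
    · rw [h2]
      exact he' i

end Pool.Agent.Lib.MP_562b47_mp.RD
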