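import Mathlib

/-!
MP_562b47, bridge in dimension `d`: the port windows.

Class `N` uses the interval `[c - r - 3r/(N+1), c - r - 3r/(N+2)]`, cut into `K` pieces of length
`3 lw`; the window of type `t < K` is the middle third of the piece number `t`.  All port windows are
contained in `[c - 4r, c - r]`, and the gap on each side of a window is at least its length.
-/

namespace Pool.Agent.Lib.MP_562b47_mp.RD

/-- length of a window -/
noncomputable def lw (K : ℕ) (r : ℝ) (N : ℕ) : ℝ := r / (K * (((N : ℝ) + 1) * (N + 2)))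

/-- left endpoint -/
noncomputable def jlo (K : ℕ) (c r : ℝ) (N t : ℕ) : ℝ :=
  c - r - 3 * r / (N + 1) + (3 * t + 1) * lw K r N

/-- right endpoint -/
noncomputable def jhi (K : ℕ) (c r : ℝ) (N t : ℕ) : ℝ :=
  c - r - 3 * r / (N + 1) + (3 * t + 2) * lw K r N

variable {K : ℕ} {c r : ℝ}

theorem lw_pos (hK : 0 < K) (hr : 0 < r) (N : ℕ) : 0 < lw K r N := by
  have h : (0 : ℝ) < K := by exact_mod_cast hK
  unfold lw; positivity

theorem jhi_sub (N t : ℕ) : jhi K c r N t - jlo K c r N t = lw K r N := by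
  unfold jhi jlo; ring

theorem tot_lw (hK : 0 < K) (N : ℕ) :
    3 * K * lw K r N = 3 * r / (N + 1) - 3 * r / (N + 2) := by
  have h1 : (K : ℝ) ≠ 0 := by exact_mod_cast hK.ne'
  have h2 : (N : ℝ) + 1 ≠ 0 := by positivity
  have h3 : (N : ℝ) + 2 ≠ 0 := by positivity
  unfold lw
  field_simp
  ring

theorem lw_anti (hK : 0 < K) (hr : 0 < r) {N N' : ℕ} (h : N ≤ N') : lw K r N' ≤ lw K r N := by
  have h0 : (0 : ℝ) < K := by exact_mod_cast hK
  unfold lw
  have h1 : (N : ℝ) ≤ N' := by exact_mod_cast h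
  apply div_le_div_of_nonneg_left hr.le (by positivity)
  apply mul_le_mul_of_nonneg_left _ h0.le
  exact mul_le_mul (by linarith) (by linarith) (by positivity) (by positivity)

/-- the left gap stays in the piece -/
theorem jlo_ge (hK : 0 < K) (hr : 0 < r) (N t : ℕ) :
    c - r - 3 * r / (N + 1) ≤ jlo K c r N t - lw K r N := by
  have h2 := lw_pos hK hr N
  unfold jlo
  have : 0 ≤ (t : ℝ) * lw K r N := by positivity
  nlinarith

/-- the right gap stays in the piece -/
theorem jhi_le (hK : 0 < K) (hr : 0 < r) (N : ℕ) {t : ℕ} (ht : t < K) :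
    jhi K c r N t + lw K r N ≤ c - r - 3 * r / (N + 2) := by
  have h2 := lw_pos hK hr N
  have h3 := tot_lw (r := r) hK N
  have h5 : (t : ℝ) + 1 ≤ K := by exact_mod_cast ht
  unfold jhi
  have h4 : ((t : ℝ) + 1) * lw K r N ≤ K * lw K r N := mul_le_mul_of_nonneg_right h5 h2.le
  nlinarith

theorem jlo_ge' (hK : 0 < K) (hr : 0 < r) (N t : ℕ) :
    c - 4 * r ≤ jlo K c r N t - lw K r N := by
  have h := jlo_ge (c := c) hK hr N t
  have h1 : 3 * r / ((N : ℝ) + 1) ≤ 3 * r := by
    apply div_le_self (by positivity)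
    have : (0 : ℝ) ≤ N := Nat.cast_nonneg N
    linarith
  linarith

theorem jhi_le' (hK : 0 < K) (hr : 0 < r) (N : ℕ) {t : ℕ} (ht : t < K) :
    jhi K c r N t + lw K r N ≤ c - r := by
  have h := jhi_le (c := c) hK hr N ht
  have : 0 < 3 * r / ((N : ℝ) + 2) := by positivity
  linarith

theorem jlo_lt_jhi (hK : 0 < K) (hr : 0 < r) (N t : ℕ) : jlo K c r N t < jhi K c r N t := by
  have := lw_pos hK hr N
  have := jhi_sub (K := K) (c := c) (r := r) N t
  linarith

/-- different classes or different types: the gap between the windows is at least the sum of their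
lengths -/
theorem J_gap (hK : 0 < K) (hr : 0 < r) (N N' : ℕ) {t t' : ℕ} (ht : t < K) (ht' : t' < K)
    (h : N ≠ N' ∨ t ≠ t') :
    jhi K c r N t + lw K r N ≤ jlo K c r N' t' - lw K r N' ∨
      jhi K c r N' t' + lw K r N' ≤ jlo K c r N t - lw K r N := by
  have key : ∀ {N N' t t' : ℕ}, t < K → N < N' →
      jhi K c r N t + lw K r N ≤ jlo K c r N' t' - lw K r N' := by
    intro N N' t t' ht hN
    have h1 := jhi_le (c := c) hK hr N ht
    have h2 := jlo_ge (c := c) hK hr N' t'
    have h3 : 3 * r / ((N' : ℝ) + 1) ≤ 3 * r / (N + 2) := by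
      apply div_le_div_of_nonneg_left (by positivity) (by positivity)
      have : (N : ℝ) + 1 ≤ N' := by exact_mod_cast hN
      linarith
    linarith
  have key2 : ∀ {N t t' : ℕ}, t < t' →
      jhi K c r N t + lw K r N ≤ jlo K c r N t' - lw K r N := by
    intro N t t' h1
    have h2 : (t : ℝ) + 1 ≤ t' := by exact_mod_cast h1
    have hh := lw_pos hK hr N
    have h4 : ((t : ℝ) + 1) * lw K r N ≤ t' * lw K r N := mul_le_mul_of_nonneg_right h2 hh.le
    unfold jhi jlo
    nlinarith
  by_cases hN : N = N'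
  · subst hN
    have hne : t ≠ t' := by
      rcases h with h | h
      · exact absurd rfl h
      · exact h
    rcases lt_or_gt_of_ne hne with h1 | h1
    · exact Or.inl (key2 h1)
    · exact Or.inr (key2 h1)
  · rcases lt_or_gt_of_ne hN with h1 | h1
    · exact Or.inl (key ht h1)
    · exact Or.inr (key ht' h1)

theorem Icc_disj {a a' e e' : ℝ} (h : a' < e) : Disjoint (Set.Icc a a') (Set.Icc e e') := by
  rw [Set.disjoint_left]
  intro x hx hx'
  exact absurd (hx.2.trans_lt h) (not_lt.mpr hx'.1)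

/-- different classes or different types: disjoint windows -/
theorem J_disj (hK : 0 < K) (hr : 0 < r) (N N' : ℕ) {t t' : ℕ} (ht : t < K) (ht' : t' < K)
    (h : N ≠ N' ∨ t ≠ t') :
    Disjoint (Set.Icc (jlo K c r N t) (jhi K c r N t))
      (Set.Icc (jlo K c r N' t') (jhi K c r N' t')) := by
  have h1 := lw_pos hK hr N
  have h2 := lw_pos hK hr N'
  rcases J_gap (c := c) hK hr N N' ht ht' h with h3 | h3
  · exact Icc_disj (by linarith)
  · exact (Icc_disj (by linarith)).symm

end Pool.Agent.Lib.MP_562b47_mp.RD
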