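import Pool.Agent.Lib.MP_562b47_mp.RD.Conf
import Pool.Agent.Lib.MP_562b47_mp.RD.Lay
import Pool.Agent.Lib.MP_562b47_mp.WO.Defs

/-!
MP_562b47, bridge in dimension `d`: the matrices of `WO` in terms of those of `GD`.
-/

open Finset Matrix

namespace Pool.Agent.Lib.MP_562b47_mp.RD

open Pool.Agent.Lib.MP_562b47_mp.GD Pool.Agent.Lib.MP_562b47_mp.WO

variable {d : ℕ}

theorem adj_comm {x y : Fin d → ℤ} : adj x y ↔ adj y x := by
  have key : ∀ {x y : Fin d → ℤ}, adj x y → adj y x := by
    rintro x y ⟨i, h | h⟩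
    · exact ⟨i, Or.inr (by rw [h, GD.sh_sh]; norm_num [GD.sh_zero])⟩
    · exact ⟨i, Or.inl (by rw [h, GD.sh_sh]; norm_num [GD.sh_zero])⟩
  exact ⟨key, key⟩

theorem adj_irrefl {x : Fin d → ℤ} : ¬ adj x x := by
  rintro ⟨i, h | h⟩
  · exact sh_ne (by norm_num) h.symm
  · exact sh_ne (by norm_num) h.symm

theorem adj_rel {s x y : Fin d → ℤ} : adj (rel s x) (rel s y) ↔ adj x y := by
  constructor
  · rintro ⟨i, h | h⟩
    · exact ⟨i, Or.inl (rel_inj' (s := s) (by rw [h, rel_sh]))⟩
    · exact ⟨i, Or.inr (rel_inj' (s := s) (by rw [h, rel_sh]))⟩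
  · rintro ⟨i, h | h⟩
    · exact ⟨i, Or.inl (by rw [h, rel_sh])⟩
    · exact ⟨i, Or.inr (by rw [h, rel_sh])⟩

/-- the site with relative coordinates `y` -/
def inv (s y : Fin d → ℤ) : Fin d → ℤ := fun j => y j + s j - 1

theorem rel_inv (s y : Fin d → ℤ) : rel s (inv s y) = y := by
  funext j
  simp only [rel, inv]
  ring

theorem KM_symm (m : ℤ) (W : (Fin d → ℤ) → ℝ) : (KM m W)ᵀ = KM m W := by
  ext x y
  simp only [Matrix.transpose_apply, KM, Matrix.of_apply]
  by_cases hxy : x = y
  · subst hxy; rfl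
  · rw [if_neg hxy, if_neg (Ne.symm hxy)]
    by_cases ha : adj (x : Fin d → ℤ) y
    · rw [if_pos ha, if_pos (adj_comm.mp ha)]
    · rw [if_neg ha, if_neg fun h => ha (adj_comm.mp h)]

theorem KI_symm (m : ℤ) (W : (Fin d → ℤ) → ℝ) (x y : Fin d → ℤ) : KI m W x y = KI m W y x := by
  unfold KI
  by_cases hx : x ∈ inn d m
  · by_cases hy : y ∈ inn d m
    · rw [dif_pos hx, dif_pos hy, dif_pos hy, dif_pos hx]
      have h : ((KM m W)⁻¹)ᵀ = (KM m W)⁻¹ := by
        rw [Matrix.transpose_nonsing_inv, KM_symm]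
      conv_lhs => rw [← h]
      rfl
    · rw [dif_pos hx, dif_neg hy, dif_neg hy]
  · by_cases hy : y ∈ inn d m
    · rw [dif_neg hx, dif_pos hy, dif_neg hx]
    · rw [dif_neg hx, dif_neg hy]

section

variable {ι : Type*} [Fintype ι] [DecidableEq ι]

/-- the operator without the potential, shifted by the energy -/
noncomputable def AA (pos : ι → Fin d → ℤ) (E : ℝ) : Matrix ι ι ℝ :=
  Matrix.of fun x y => (if x = y then 2 * d - E else 0) - if adj (pos x) (pos y) then 1 else 0

/-- the sites with relative coordinates in `P` -/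
noncomputable def TT (pos : ι → Fin d → ℤ) (s : ι) (P : Finset (Fin d → ℤ)) : Finset ι :=
  univ.filter fun x => rel (pos s) (pos x) ∈ P

open Classical in
/-- the effective diagonal in relative coordinates -/
noncomputable def WW (pos : ι → Fin d → ℤ) (E : ℝ) (s : ι) (V : ι → ℝ) (y : Fin d → ℤ) : ℝ :=
  if h : ∃ x : ι, rel (pos s) (pos x) = y then 2 * d - E + V h.choose else 0

variable {pos : ι → Fin d → ℤ} {E : ℝ} {s : ι} {V : ι → ℝ} {m : ℤ}

theorem mem_TT {P : Finset (Fin d → ℤ)} {x : ι} : x ∈ TT pos s P ↔ rel (pos s) (pos x) ∈ P := by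
  simp [TT]

theorem WW_rel (hpos : Function.Injective pos) (x : ι) :
    WW pos E s V (rel (pos s) (pos x)) = 2 * d - E + V x := by
  unfold WW
  have h : ∃ x' : ι, rel (pos s) (pos x') = rel (pos s) (pos x) := ⟨x, rfl⟩
  rw [dif_pos h]
  have := hpos (rel_inj' h.choose_spec)
  rw [this]

/-- sums over a set of sites in relative coordinates -/
theorem sum_TT (hpos : Function.Injective pos)
    (hr : ∀ x, rel (pos s) x ∈ bq d m → x ∈ Set.range pos) {P : Finset (Fin d → ℤ)}
    (hP : P ⊆ bq d m) (g : (Fin d → ℤ) → ℝ) :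
    ∑ x ∈ TT pos s P, g (rel (pos s) (pos x)) = ∑ y ∈ P, g y := by
  refine Finset.sum_nbij (fun x => rel (pos s) (pos x)) ?_ ?_ ?_ ?_
  · intro x hx
    exact mem_TT.mp hx
  · intro x _ y _ hxy
    exact hpos (rel_inj' hxy)
  · intro y hy
    have hy' : y ∈ P := hy
    obtain ⟨x, hx⟩ := hr (inv (pos s) y) (by rw [rel_inv]; exact hP hy')
    refine ⟨x, ?_, ?_⟩
    · rw [Finset.mem_coe, mem_TT, hx, rel_inv]; exact hy'
    · show rel (pos s) (pos x) = y
      rw [hx, rel_inv]
  · intro x _
    rfl

/-- the bijection between the inner sites and their relative coordinates -/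
noncomputable def eqv (hpos : Function.Injective pos)
    (hr : ∀ x, rel (pos s) x ∈ bq d m → x ∈ Set.range pos) :
    (TT pos s (inn d m)) ≃ (inn d m) :=
  Equiv.ofBijective (fun x => ⟨rel (pos s) (pos x.1), mem_TT.mp x.2⟩) (by
    constructor
    · intro x y hxy
      have h := congrArg Subtype.val hxy
      exact Subtype.ext (hpos (rel_inj' h))
    · intro y
      obtain ⟨x, hx⟩ := hr (inv (pos s) y.1) (by rw [rel_inv]; exact inn_sub m y.2)
      refine ⟨⟨x, mem_TT.mpr (by rw [hx, rel_inv]; exact y.2)⟩, Subtype.ext ?_⟩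
      show rel (pos s) (pos x) = y.1
      rw [hx, rel_inv])

theorem eqv_apply (hpos : Function.Injective pos)
    (hr : ∀ x, rel (pos s) x ∈ bq d m → x ∈ Set.range pos) (x : TT pos s (inn d m)) :
    (eqv hpos hr x : Fin d → ℤ) = rel (pos s) (pos x.1) := rfl

theorem HS_eq (hpos : Function.Injective pos)
    (hr : ∀ x, rel (pos s) x ∈ bq d m → x ∈ Set.range pos) :
    HS (AA pos E) (TT pos s (inn d m)) V =
      (KM m (WW pos E s V)).submatrix (eqv hpos hr) (eqv hpos hr) := by
  ext x y
  simp only [HS, AA, Matrix.of_apply, KM, Matrix.submatrix_apply, eqv_apply]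
  by_cases hxy : x = y
  · subst hxy
    rw [if_pos rfl, if_pos rfl, if_pos rfl, if_neg adj_irrefl, if_neg adj_irrefl, WW_rel hpos]
    ring
  · have h1 : (x : ι) ≠ y := fun h => hxy (Subtype.ext h)
    have h2 : eqv hpos hr x ≠ eqv hpos hr y := fun h => hxy ((eqv hpos hr).injective h)
    rw [if_neg h1, if_neg hxy, if_neg h2]
    by_cases ha : adj (pos x) (pos y)
    · rw [if_pos ha, if_pos (adj_rel.mpr ha)]; ring
    · rw [if_neg ha, if_neg fun h => ha (adj_rel.mp h)]; ring

theorem HS_det (hpos : Function.Injective pos)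
    (hr : ∀ x, rel (pos s) x ∈ bq d m → x ∈ Set.range pos) :
    (HS (AA pos E) (TT pos s (inn d m)) V).det = (KM m (WW pos E s V)).det := by
  rw [HS_eq hpos hr, Matrix.det_submatrix_equiv_self]

theorem RS_eq (hpos : Function.Injective pos)
    (hr : ∀ x, rel (pos s) x ∈ bq d m → x ∈ Set.range pos) (x y : ι) :
    RS (AA pos E) (TT pos s (inn d m)) V x y =
      KI m (WW pos E s V) (rel (pos s) (pos x)) (rel (pos s) (pos y)) := by
  unfold RS KI
  by_cases hx : x ∈ TT pos s (inn d m)
  · by_cases hy : y ∈ TT pos s (inn d m)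
    · rw [dif_pos hx, dif_pos hy, dif_pos (mem_TT.mp hx), dif_pos (mem_TT.mp hy), HS_eq hpos hr,
        Matrix.inv_submatrix_equiv]
      rfl
    · rw [dif_pos hx, dif_neg hy, dif_pos (mem_TT.mp hx), dif_neg fun h => hy (mem_TT.mpr h)]
  · rw [dif_neg hx, dif_neg fun h => hx (mem_TT.mpr h)]

/-- the response of the inner block to the centre, seen from a site `x` outside -/
theorem main_sum (hpos : Function.Injective pos)
    (hr : ∀ x, rel (pos s) x ∈ bq d m → x ∈ Set.range pos) {x : ι}
    (hx : x ∉ TT pos s (inn d m)) :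
    ∑ y, ∑ y', AA pos E s y * RS (AA pos E) (TT pos s (inn d m)) V y y' * AA pos E y' x =
      ∑ y ∈ inn d m, if adj (rel (pos s) (pos x)) y then SV m (WW pos E s V) y else 0 := by
  have hs : s ∉ TT pos s (inn d m) := by
    rw [mem_TT, rel_self, mem_inn]
    exact fun h => h.1 rfl
  rw [Finset.sum_comm]
  have h1 : ∀ y' : ι, ∑ y, AA pos E s y * RS (AA pos E) (TT pos s (inn d m)) V y y' *
        AA pos E y' x =
      if y' ∈ TT pos s (inn d m) then
        (if adj (rel (pos s) (pos x)) (rel (pos s) (pos y')) then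
          SV m (WW pos E s V) (rel (pos s) (pos y')) else 0) else 0 := by
    intro y'
    by_cases hy' : y' ∈ TT pos s (inn d m)
    · rw [if_pos hy']
      have hyx : y' ≠ x := fun h => hx (h ▸ hy')
      have hA : AA pos E y' x =
          -(if adj (rel (pos s) (pos x)) (rel (pos s) (pos y')) then 1 else 0) := by
        simp only [AA, Matrix.of_apply]
        rw [if_neg hyx, zero_sub]
        congr 1
        by_cases ha : adj (pos y') (pos x)
        · rw [if_pos ha, if_pos (adj_rel.mpr (adj_comm.mp ha))]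
        · rw [if_neg ha, if_neg fun h => ha (adj_comm.mp (adj_rel.mp h))]
      rw [← Finset.sum_mul, hA]
      have hsum : ∑ y, AA pos E s y * RS (AA pos E) (TT pos s (inn d m)) V y y' =
          -SV m (WW pos E s V) (rel (pos s) (pos y')) := by
        unfold SV
        rw [← sum_TT hpos hr (inn_sub m), ← Finset.sum_neg_distrib,
          ← Finset.sum_subset (Finset.subset_univ (TT pos s (inn d m)))]
        · apply Finset.sum_congr rfl
          intro y hy
          have hsy : s ≠ y := fun h => hs (h ▸ hy)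
          rw [RS_eq hpos hr, KI_symm]
          simp only [AA, Matrix.of_apply]
          rw [if_neg hsy, ← rel_self (pos s)]
          by_cases ha : adj (pos s) (pos y)
          · rw [if_pos ha, if_pos (adj_rel.mpr ha)]; ring
          · rw [if_neg ha, if_neg fun h => ha (adj_rel.mp h)]; ring
        · intro y _ hy
          have : RS (AA pos E) (TT pos s (inn d m)) V y y' = 0 := by
            unfold RS
            rw [dif_neg hy]
          rw [this, mul_zero]
      rw [hsum]
      split_ifs <;> ring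
    · rw [if_neg hy']
      apply Finset.sum_eq_zero
      intro y _
      have : RS (AA pos E) (TT pos s (inn d m)) V y y' = 0 := by
        unfold RS
        split_ifs <;> rfl
      rw [this]; ring
  rw [Finset.sum_congr rfl fun y' _ => h1 y', Finset.sum_ite_mem, Finset.univ_inter]
  exact sum_TT hpos hr (inn_sub m) (fun y => if adj (rel (pos s) (pos x)) y then
    SV m (WW pos E s V) y else 0)

end

end Pool.Agent.Lib.MP_562b47_mp.RD
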