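import Pool.Agent.Lib.MP_562b47_mp.RD.Good
import Pool.Agent.Lib.MP_562b47_mp.ST.Exp

/-!
MP_562b47, dimension `d`: START for the instance.  The constant does not depend on the number of
classes `M`, on the box, nor on the backgrounds `et j`.
-/

open Finset Matrix MeasureTheory

set_option linter.unusedSectionVars false

namespace Pool.Agent.Lib.MP_562b47_mp.RD

open Pool.Agent.Lib.MP_562b47_mp.GD Pool.Agent.Lib.MP_562b47_mp.WO Pool.Agent.Lib.MP_562b47_mp

/-! ### constants by size -/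

/-- size of a block -/
noncomputable def Gd.nQ {d : ℕ} {c : ℝ} (G : Gd d c) (N : ℕ) : ℝ := (2 * (G.b : ℝ) * N + 1) ^ d

/-- bound of the inner inverse -/
noncomputable def Gd.Rb {d : ℕ} {c : ℝ} (G : Gd d c) (N : ℕ) : ℝ :=
  Real.exp (G.C * (N : ℝ) ^ (d + 1))

/-- lower bound of the strength of the absorber -/
noncomputable def Gd.gl {d : ℕ} {c : ℝ} (G : Gd d c) (N : ℕ) : ℝ :=
  2 / lw (KK d) G.r N * (G.z ^ (2 * N) / G.C)

/-- bound of the probability that a block is complete -/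
noncomputable def Gd.PP {d : ℕ} {c : ℝ} (_ : Gd d c) (Cw : ℝ) (N : ℕ) : ℝ :=
  (Real.exp (-(Cw * (N : ℝ) ^ (d + 1))) / c) ^ (N ^ d)

section const

variable {d : ℕ} {c : ℝ} (G : Gd d c)

theorem Gd.C_pos : 0 < G.C := by linarith [G.C_ge]

theorem Gd.b_ge : (3 : ℝ) ≤ G.b := by exact_mod_cast G.hb

theorem Gd.nQ_nonneg (N : ℕ) : 0 ≤ G.nQ N := by
  have := G.b_ge
  unfold Gd.nQ
  positivity

theorem Gd.gl_pos (N : ℕ) : 0 < G.gl N := by
  unfold Gd.gl
  have h1 := lw_pos (KK_pos d) G.r_pos N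
  have h2 := G.z_pos
  have h3 := G.C_pos
  positivity

theorem Gd.Rb_nonneg (N : ℕ) : 0 ≤ G.Rb N := (Real.exp_pos _).le

theorem Gd.PP_nonneg {Cw : ℝ} (hc : 0 < c) (N : ℕ) : 0 ≤ G.PP Cw N := by
  unfold Gd.PP
  positivity

theorem Gd.lw_le (N : ℕ) : lw (KK d) G.r N ≤ G.r := by
  have hK : (1 : ℝ) ≤ KK d := by exact_mod_cast KK_pos d
  unfold lw
  apply div_le_self G.r_pos.le
  have h0 : (0 : ℝ) ≤ N := Nat.cast_nonneg N
  have h1 : (1 : ℝ) ≤ ((N : ℝ) + 1) * (N + 2) := by nlinarith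
  nlinarith

theorem Gd.one_div_gl (N : ℕ) :
    1 / G.gl N ≤ G.r * G.C * Real.exp (2 * (N : ℝ) * (-Real.log G.z)) := by
  have h1 := G.r_pos
  have h2 := G.z_pos
  have h3 := G.C_pos
  have e1 : Real.exp (2 * (N : ℝ) * (-Real.log G.z)) = (G.z ^ (2 * N))⁻¹ := by
    have : 2 * (N : ℝ) * (-Real.log G.z) = -(((2 * N : ℕ) : ℝ) * Real.log G.z) := by
      push_cast; ring
    rw [this, Real.exp_neg, Real.exp_nat_mul, Real.exp_log h2]
  rw [e1]
  have e2 : 1 / G.gl N = lw (KK d) G.r N / 2 * G.C * (G.z ^ (2 * N))⁻¹ := by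
    unfold Gd.gl
    have := lw_pos (KK_pos d) G.r_pos N
    field_simp
  rw [e2]
  have e3 := G.lw_le N
  have e4 : 0 < (G.z ^ (2 * N))⁻¹ := by positivity
  have e5 : 0 < lw (KK d) G.r N := lw_pos (KK_pos d) G.r_pos N
  gcongr
  linarith

theorem Gd.nQ_le_exp (N : ℕ) (hN : 1 ≤ N) :
    G.nQ N ≤ (2 * (G.b : ℝ) + 1) ^ d * Real.exp (d * N) := by
  have hb := G.b_ge
  have hN' : (1 : ℝ) ≤ N := by exact_mod_cast hN
  have hexpN : (N : ℝ) ≤ Real.exp N := by linarith [Real.add_one_le_exp (N : ℝ)]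
  unfold Gd.nQ
  have e1 : 2 * (G.b : ℝ) * N + 1 ≤ (2 * (G.b : ℝ) + 1) * Real.exp N := by
    calc 2 * (G.b : ℝ) * N + 1 ≤ (2 * (G.b : ℝ) + 1) * N := by nlinarith
      _ ≤ (2 * (G.b : ℝ) + 1) * Real.exp N := by gcongr
  have e2 : Real.exp (d * (N : ℝ)) = Real.exp N ^ d := by
    rw [← Real.exp_nat_mul]
  rw [e2, ← mul_pow]
  have e3 : 0 ≤ 2 * (G.b : ℝ) * N + 1 := by positivity
  gcongr

/-- maximal degree -/
noncomputable def dg (d : ℕ) : ℝ := 2 * d

theorem Gd.summable_W {Cw : ℝ} (hc : 0 < c) (hCw : 1 ≤ Cw) {a0 : ℝ} (ha0 : 0 < a0) :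
    Summable fun N : ℕ => G.PP Cw N * ST.Wj G.nQ G.gl G.Rb (dg d) a0 N := by
  set Lz : ℝ := -Real.log G.z with hLz
  have hLz0 : 0 ≤ Lz := by
    rw [hLz]
    have := Real.log_nonpos G.z_pos.le G.z_lt.le
    linarith
  set A : ℝ := |Real.log c| + 5 * d + 4 * G.C + 4 * Lz with hA
  have hC := G.C_pos
  have hr := G.r_pos
  set Kd : ℝ := 1 + 4 * (dg d ^ 2 + 1) with hKd
  have hKd0 : 0 ≤ Kd := by positivity
  set K : ℝ := ((2 * (G.b : ℝ) + 1) ^ d) ^ 5 * Kd ^ 2 * (1 / a0 + G.r * G.C) ^ 2 with hK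
  have hb := G.b_ge
  have hK0 : 0 ≤ K := by positivity
  have hsum : Summable fun N : ℕ => K * Real.exp (-(N : ℝ)) :=
    (Real.summable_exp_neg_nat).mul_left K
  refine Summable.of_norm_bounded_eventually_nat hsum ?_
  obtain ⟨N1, hN1⟩ := exists_nat_ge (A + 1)
  filter_upwards [Filter.eventually_ge_atTop (max N1 1)] with N hN
  have hN1' : (1 : ℝ) ≤ N := by exact_mod_cast (le_max_right N1 1).trans hN
  have hNA : A + 1 ≤ N := hN1.trans (by exact_mod_cast (le_max_left N1 1).trans hN)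
  have hN0 : (0 : ℝ) ≤ N := by linarith
  have hW0 : 0 ≤ ST.Wj G.nQ G.gl G.Rb (dg d) a0 N := ST.Wj_nonneg (G.nQ_nonneg N)
  rw [Real.norm_of_nonneg (mul_nonneg (G.PP_nonneg hc N) hW0)]
  -- size
  have h1 := G.nQ_le_exp N ((le_max_right N1 1).trans hN)
  -- inner inverse
  have h2 : 1 + 4 * (dg d ^ 2 + 1) * G.Rb N ^ 2 ≤
      Kd * Real.exp (2 * G.C * (N : ℝ) ^ (d + 1)) := by
    have e1 : Real.exp (2 * G.C * (N : ℝ) ^ (d + 1)) = G.Rb N ^ 2 := by
      unfold Gd.Rb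
      rw [← Real.exp_nat_mul]
      congr 1
      push_cast
      ring
    rw [e1]
    have e2 : 1 ≤ G.Rb N := Real.one_le_exp (by positivity)
    have e3 : 1 ≤ G.Rb N ^ 2 := one_le_pow₀ e2
    rw [hKd]
    nlinarith
  -- strength
  have h3 : 1 / a0 + 1 / G.gl N ≤ (1 / a0 + G.r * G.C) * Real.exp (2 * (N : ℝ) * Lz) := by
    have e1 := G.one_div_gl N
    have e2 : 1 ≤ Real.exp (2 * (N : ℝ) * Lz) := Real.one_le_exp (by positivity)
    have e3 : 0 < 1 / a0 := by positivity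
    nlinarith
  have hg0 : 0 < 1 / G.gl N := by have := G.gl_pos N; positivity
  have h4 : ST.Wj G.nQ G.gl G.Rb (dg d) a0 N ≤
      K * Real.exp (5 * d * N + 4 * G.C * (N : ℝ) ^ (d + 1) + 4 * N * Lz) := by
    unfold ST.Wj
    have hn := G.nQ_nonneg N
    calc G.nQ N * (G.nQ N ^ 2 * (1 + 4 * (dg d ^ 2 + 1) * G.Rb N ^ 2) *
          (1 / a0 + 1 / G.gl N)) ^ 2
        ≤ ((2 * (G.b : ℝ) + 1) ^ d * Real.exp (d * N)) *
          ((((2 * (G.b : ℝ) + 1) ^ d * Real.exp (d * N)) ^ 2 *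
            (Kd * Real.exp (2 * G.C * (N : ℝ) ^ (d + 1))) *
            ((1 / a0 + G.r * G.C) * Real.exp (2 * (N : ℝ) * Lz))) ^ 2) := by gcongr
      _ = K * (Real.exp (d * N) ^ 5 * Real.exp (2 * G.C * (N : ℝ) ^ (d + 1)) ^ 2 *
          Real.exp (2 * (N : ℝ) * Lz) ^ 2) := by rw [hK]; ring
      _ = _ := by
          congr 1
          rw [← Real.exp_nat_mul, ← Real.exp_nat_mul, ← Real.exp_nat_mul, ← Real.exp_add,
            ← Real.exp_add]
          congr 1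
          push_cast
          ring
  have h5 : G.PP Cw N ≤ Real.exp (-(N : ℝ) ^ (2 * d + 1) + (N : ℝ) ^ d * |Real.log c|) := by
    unfold Gd.PP
    have e1 : Real.exp (-(Cw * (N : ℝ) ^ (d + 1))) / c =
        Real.exp (-(Cw * (N : ℝ) ^ (d + 1)) - Real.log c) := by
      rw [Real.exp_sub, Real.exp_log hc]
    rw [e1, ← Real.exp_nat_mul]
    apply Real.exp_le_exp.mpr
    push_cast
    have e2 : -Real.log c ≤ |Real.log c| := neg_le_abs _
    have e3 : (0 : ℝ) ≤ (N : ℝ) ^ d := by positivity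
    have e4 : (N : ℝ) ^ d * -Real.log c ≤ (N : ℝ) ^ d * |Real.log c| :=
      mul_le_mul_of_nonneg_left e2 e3
    have e5 : (N : ℝ) ^ (2 * d + 1) ≤ Cw * (N : ℝ) ^ (2 * d + 1) := by
      have : (0 : ℝ) ≤ (N : ℝ) ^ (2 * d + 1) := by positivity
      nlinarith
    have e6 : (N : ℝ) ^ d * (-(Cw * (N : ℝ) ^ (d + 1)) - Real.log c) =
        -(Cw * (N : ℝ) ^ (2 * d + 1)) + (N : ℝ) ^ d * -Real.log c := by ring
    rw [e6]
    linarith
  calc G.PP Cw N * ST.Wj G.nQ G.gl G.Rb (dg d) a0 N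
      ≤ Real.exp (-(N : ℝ) ^ (2 * d + 1) + (N : ℝ) ^ d * |Real.log c|) *
        (K * Real.exp (5 * d * N + 4 * G.C * (N : ℝ) ^ (d + 1) + 4 * N * Lz)) := by gcongr
    _ = K * Real.exp (-(N : ℝ) ^ (2 * d + 1) + (N : ℝ) ^ d * |Real.log c| +
        (5 * d * N + 4 * G.C * (N : ℝ) ^ (d + 1) + 4 * N * Lz)) := by
        rw [Real.exp_add (-(N : ℝ) ^ (2 * d + 1) + (N : ℝ) ^ d * |Real.log c|)]
        ring
    _ ≤ K * Real.exp (-(N : ℝ)) := by
        refine mul_le_mul_of_nonneg_left (Real.exp_le_exp.mpr ?_) hK0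
        have hd := G.hd
        have p00 : (N : ℝ) ^ d ≤ (N : ℝ) ^ (d + 1) := pow_le_pow_right₀ hN1' (by omega)
        have p1 : (N : ℝ) ^ d * |Real.log c| ≤ (N : ℝ) ^ (d + 1) * |Real.log c| :=
          mul_le_mul_of_nonneg_right p00 (abs_nonneg _)
        have p0 : (N : ℝ) ≤ (N : ℝ) ^ (d + 1) := le_self_pow₀ hN1' (by omega)
        have p2 : 5 * d * (N : ℝ) ≤ 5 * d * (N : ℝ) ^ (d + 1) := by gcongr
        have p3 : 4 * N * Lz ≤ 4 * (N : ℝ) ^ (d + 1) * Lz := by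
          refine mul_le_mul_of_nonneg_right ?_ hLz0
          linarith
        have p4 : A * (N : ℝ) ^ (d + 1) ≤ (N : ℝ) ^ (2 * d + 1) - (N : ℝ) ^ (d + 1) := by
          have q1 : A ≤ (N : ℝ) - 1 := by linarith
          have q2 : (0 : ℝ) ≤ (N : ℝ) ^ (d + 1) := by positivity
          have q3 : (N : ℝ) - 1 ≤ (N : ℝ) ^ d - 1 := by
            have := le_self_pow₀ hN1' (n := d) (by omega)
            linarith
          have q4 : A ≤ (N : ℝ) ^ d - 1 := q1.trans q3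
          calc A * (N : ℝ) ^ (d + 1) ≤ ((N : ℝ) ^ d - 1) * (N : ℝ) ^ (d + 1) := by gcongr
            _ = _ := by ring
        have p5 : A * (N : ℝ) ^ (d + 1) = (N : ℝ) ^ (d + 1) * |Real.log c| +
            5 * d * (N : ℝ) ^ (d + 1) +
            4 * G.C * (N : ℝ) ^ (d + 1) + 4 * (N : ℝ) ^ (d + 1) * Lz := by rw [hA]; ring
        linarith

end const

/-! ### geometry -/

namespace Par

variable {d : ℕ} {c : ℝ} {ι : Type*}

/-- the coordinates -/
noncomputable def xi (P : Par d c ι) : Fin d → ι → ℝ := fun j x => (P.pos x j : ℝ)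

variable [Fintype ι] [DecidableEq ι]

/-- the neighbours -/
noncomputable def nb (P : Par d c ι) (x : ι) : Finset ι :=
  univ.filter fun y => adj (P.pos x) (P.pos y)

variable (P : Par d c ι)

theorem mem_nb {x y : ι} : y ∈ P.nb x ↔ adj (P.pos x) (P.pos y) := by simp [nb]

theorem card_nb (x : ι) : (P.nb x).card ≤ 2 * d := by
  classical
  have h1 : (P.nb x).card = ((P.nb x).image P.pos).card :=
    (card_image_of_injective _ P.inj).symm
  have h2 : (P.nb x).image P.pos ⊆ (univ : Finset (Fin d × Bool)).image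
      fun q => GD.sh (P.pos x) q.1 (if q.2 then 1 else -1) := by
    intro y hy
    obtain ⟨y', hy', rfl⟩ := mem_image.mp hy
    rw [mem_image]
    obtain ⟨i, h | h⟩ := (P.mem_nb).mp hy'
    · exact ⟨(i, true), mem_univ _, by simp [h]⟩
    · exact ⟨(i, false), mem_univ _, by simp [h]⟩
  rw [h1]
  refine (card_le_card h2).trans (card_image_le.trans (le_of_eq ?_))
  rw [card_univ, Fintype.card_prod, Fintype.card_fin, Fintype.card_bool, mul_comm]

theorem A_off {p q : ι} (h : p ≠ q) : P.A p q = if adj (P.pos p) (P.pos q) then -1 else 0 := by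
  simp only [A, AA, Matrix.of_apply, if_neg h]
  split_ifs <;> ring

theorem step_adj {x y : Fin d → ℤ} (h : adj x y) (j : Fin d) : |(y j : ℝ) - x j| ≤ 1 := by
  have key : y j - x j = 0 ∨ y j - x j = 1 ∨ y j - x j = -1 := by
    obtain ⟨i, rfl | rfl⟩ := h
    · rcases sh_val x i j 1 with ⟨-, h2⟩ | ⟨-, h2⟩ <;> rw [h2] <;> omega
    · rcases sh_val x i j (-1) with ⟨-, h2⟩ | ⟨-, h2⟩ <;> rw [h2] <;> omega
  have h1 : ((y j : ℝ) - x j) = ((y j - x j : ℤ) : ℝ) := by push_cast; ring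
  rw [h1]
  rcases key with h | h | h <;> rw [h] <;> simp

theorem geo : ST.Geo P.A P.xi P.nb (dg d) where
  supp := by
    intro p q hpq hq
    rw [P.mem_nb] at hq
    rw [P.A_off hpq, if_neg hq]
  symN := by
    intro p q hq
    rw [P.mem_nb] at hq ⊢
    exact adj_comm.mp hq
  card := by
    intro p
    unfold dg
    exact_mod_cast P.card_nb p
  hop := by
    intro p q hpq
    rw [P.A_off hpq]
    split_ifs <;> simp
  step := by
    intro j p q
    by_cases hpq : p = q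
    · subst hpq; simp
    · rw [P.A_off hpq]
      split_ifs with h
      · rw [neg_one_mul, abs_neg]
        exact step_adj h j
      · simp

theorem card_TT_le (s : ι) (T : Finset (Fin d → ℤ)) : (TT P.pos s T).card ≤ T.card := by
  refine card_le_card_of_injOn (fun x => rel (P.pos s) (P.pos x)) (fun x hx => ?_) ?_
  · exact mem_TT.mp hx
  · intro x _ y _ hxy
    exact P.inj (rel_inj' hxy)

theorem card_TT_eq {q : P.Blk} {T : Finset (Fin d → ℤ)} (hT : T ⊆ bq d (P.rad q)) :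
    ((TT P.pos (P.ctr q) T).card : ℝ) = T.card := by
  have h := sum_TT P.inj (P.ran q) hT (fun _ => (1 : ℝ))
  simpa using h

theorem card_bq {m : ℤ} (hm : 0 ≤ m) : ((bq d m).card : ℝ) = (2 * m + 1) ^ d := by
  unfold bq
  rw [Fintype.card_piFinset, prod_const, card_univ, Fintype.card_fin, Int.card_Icc]
  have h1 : (((m + 1 - -m).toNat : ℕ) : ℝ) = 2 * m + 1 := by
    have : (((m + 1 - -m).toNat : ℕ) : ℤ) = 2 * m + 1 := by
      rw [Int.toNat_of_nonneg (by omega)]; ring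
    have h2 : (((m + 1 - -m).toNat : ℤ) : ℝ) = ((2 * m + 1 : ℤ) : ℝ) := by rw [this]
    push_cast at h2
    exact h2
  push_cast
  rw [h1]

theorem rad_cast (q : P.Blk) : ((P.rad q : ℤ) : ℝ) = P.G.b * (P.num q : ℝ) := by
  unfold rad
  push_cast
  ring

theorem card_Q_le (q : P.Blk) : ((P.sys.Q q).card : ℝ) ≤ P.G.nQ (P.num q) := by
  have h1 : ((P.sys.Q q).card : ℝ) ≤ ((bq d (P.rad q)).card : ℝ) := by
    exact_mod_cast P.card_TT_le (P.ctr q) (bq d (P.rad q))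
  have h2 := P.rad_ge q
  rw [card_bq (by omega)] at h1
  refine h1.trans (le_of_eq ?_)
  unfold Gd.nQ
  rw [P.rad_cast q]
  ring

theorem card_inn_ge (q : P.Blk) : (P.num q) ^ d ≤ (P.sys.inn q).card := by
  have hd := P.G.hd
  rw [P.inn_eq]
  have h1 := P.card_TT_eq (q := q) (T := GD.inn d (P.rad q)) (inn_sub _)
  have h2 : (P.num q) ^ d ≤ (GD.inn d (P.rad q)).card := by
    have h3 := P.rad_ge q
    unfold GD.inn
    rw [card_erase_of_mem (one_mem_qi h3)]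
    unfold GD.qi
    rw [Fintype.card_piFinset, prod_const, card_univ, Fintype.card_fin, Int.card_Icc]
    have h5 : (P.num q : ℤ) + 1 ≤ P.rad q - 1 + 1 - -(P.rad q - 1) := by
      have h6 : (1 : ℤ) ≤ P.num q := by exact_mod_cast P.one_le_num q
      have h7 := P.G.hb
      have h8 : (3 : ℤ) * (P.num q : ℤ) ≤ P.rad q := by
        unfold rad
        nlinarith
      omega
    have h9 : P.num q + 1 ≤ (P.rad q - 1 + 1 - -(P.rad q - 1)).toNat := by omega
    have h10 : (P.num q + 1) ^ d ≤ (P.rad q - 1 + 1 - -(P.rad q - 1)).toNat ^ d :=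
      Nat.pow_le_pow_left h9 d
    have h11 : (P.num q) ^ d < (P.num q + 1) ^ d := Nat.pow_lt_pow_left (Nat.lt_succ_self _)
      (by omega)
    omega
  have h3 : (GD.inn d (P.rad q)).card = (TT P.pos (P.ctr q) (GD.inn d (P.rad q))).card := by
    exact_mod_cast h1.symm
  rw [← h3]
  exact h2

theorem de_le_c (q : P.Blk) : P.de (P.num q) / c ≤ 1 := by
  have h1 := P.de_le_ρ (P.one_le_num q)
  have h2 := P.c_ge
  have h3 := P.G.r_pos
  have h4 := P.G.ρ_pos
  rw [div_le_one P.c_pos]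
  linarith

theorem prob_le (q : P.Blk) : P.sys.mu.real {V | P.sys.comp q V} ≤ P.G.PP P.Cw (P.num q) := by
  classical
  have hc := P.c_pos
  rw [ST.prob_comp]
  have hfac : ∀ x, 0 ≤ (P.sys.hi q x - P.sys.lo q x) / (2 * P.sys.c) ∧
      (P.sys.hi q x - P.sys.lo q x) / (2 * P.sys.c) ≤ 1 := by
    intro x
    have h1 := P.sys.lo_lt q x
    have h2 := P.sys.lo_ge q x
    have h3 := P.sys.hi_le q x
    have h4 := P.sys.c_pos
    constructor
    · have : 0 ≤ P.sys.hi q x - P.sys.lo q x := by linarith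
      positivity
    · rw [div_le_one (by linarith)]
      linarith
  have hsub : P.sys.inn q ⊆ (P.sys.Q q).erase (P.sys.w q) := by
    intro x hx
    have := (P.sys.mem_inn).mp hx
    exact mem_erase.mpr ⟨this.1, this.2.1⟩
  have h1 : ∏ x ∈ (P.sys.Q q).erase (P.sys.w q), (P.sys.hi q x - P.sys.lo q x) / (2 * P.sys.c) ≤
      ∏ x ∈ P.sys.inn q, (P.sys.hi q x - P.sys.lo q x) / (2 * P.sys.c) := by
    rw [← prod_sdiff hsub]
    have h0 : 0 ≤ ∏ x ∈ P.sys.inn q, (P.sys.hi q x - P.sys.lo q x) / (2 * P.sys.c) :=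
      prod_nonneg fun x _ => (hfac x).1
    have h9 : ∏ x ∈ ((P.sys.Q q).erase (P.sys.w q)) \ P.sys.inn q,
        (P.sys.hi q x - P.sys.lo q x) / (2 * P.sys.c) ≤ 1 :=
      prod_le_one (fun x _ => (hfac x).1) (fun x _ => (hfac x).2)
    calc _ ≤ 1 * ∏ x ∈ P.sys.inn q, (P.sys.hi q x - P.sys.lo q x) / (2 * P.sys.c) := by gcongr
      _ = _ := one_mul _
  refine h1.trans ?_
  have h2 : ∀ x ∈ P.sys.inn q, (P.sys.hi q x - P.sys.lo q x) / (2 * P.sys.c) =
      P.de (P.num q) / c := by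
    intro x hx
    have h3 := (P.mem_inn').mp hx
    have h4 : P.sys.lo q x = P.lo q x := rfl
    have h5 : P.sys.hi q x = P.hi q x := rfl
    have h6 : P.sys.c = c := rfl
    rw [h4, h5, h6, P.lo_inn h3, P.hi_inn h3]
    field_simp
    ring
  rw [prod_congr rfl h2, prod_const]
  have h7 : 0 ≤ P.de (P.num q) / c := by
    have := P.de_pos (P.num q)
    positivity
  exact pow_le_pow_of_le_one h7 (P.de_le_c q) (P.card_inn_ge q)

theorem mult_le (j : ℕ) : ((univ.filter fun q : P.Blk => P.sys.cls q = j).card : ℝ) ≤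
    1 * Fintype.card ι := by
  rw [one_mul]
  have h1 : (univ.filter fun q : P.Blk => P.sys.cls q = j).card ≤ (univ : Finset ι).card := by
    refine card_le_card_of_injOn (fun q => P.ctr q) (fun _ _ => mem_univ _) ?_
    intro q hq q' hq' h
    have e1 : P.cls q = j := (mem_filter.mp hq).2
    have e2 : P.cls q' = j := (mem_filter.mp hq').2
    have e3 : q.1.1 = q'.1.1 := by
      apply Fin.ext
      exact e1.trans e2.symm
    exact Subtype.ext (Prod.ext e3 h)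
  exact_mod_cast h1

end Par

/-- START for the instance -/
theorem exists_start.{u} {d : ℕ} {c : ℝ} (hc : 0 < c) (G : Gd d c) (Cw : ℝ) (hCw : 1 ≤ Cw) (N0 : ℕ)
    {a0 : ℝ} (ha0 : 0 < a0) : ∃ K : ℝ, 0 < K ∧
      ∀ (ι : Type u) [Fintype ι] [DecidableEq ι] (P : Par d c ι),
      P.G = G → P.Cw = Cw → P.N0 = N0 → WO.Good P.sys P.A →
      (∀ j, P.et j * G.nQ (N0 + j) * G.Rb (N0 + j) ≤ 1 / 2) →
      ∀ (m : ℕ) (t a : ℝ), a0 ≤ a → a ≤ 1 → 0 ≤ t → t ≤ 1 →
        P.sys.Dw P.A P.xi m t a ≤ K * Fintype.card ι := by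
  have hsum := (summable_nat_add_iff N0).mpr (G.summable_W hc hCw ha0)
  set T : ℝ := ∑' j, G.PP Cw (j + N0) * ST.Wj G.nQ G.gl G.Rb (dg d) a0 (j + N0) with hT
  have hW0 : ∀ N, 0 ≤ G.PP Cw N * ST.Wj G.nQ G.gl G.Rb (dg d) a0 N := fun N =>
    mul_nonneg (G.PP_nonneg hc N) (ST.Wj_nonneg (G.nQ_nonneg N))
  have hT0 : 0 ≤ T := tsum_nonneg fun j => hW0 _
  have hd0 : (0 : ℝ) < d := by
    have := G.hd
    have : 0 < d := by omega
    exact_mod_cast this
  have hdg : 0 < dg d := by unfold dg; positivity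
  refine ⟨32 * d * dg d ^ 2 * (1 / a0 ^ 2 + 1 * T), by positivity, ?_⟩
  intro ι _ _ P hG hCw' hN0 hgood het m t a haa ha1 ht0 ht1
  subst hG hN0
  have ha : 0 < a := ha0.trans_le haa
  set nQ : ℕ → ℝ := fun j => P.G.nQ (P.N0 + j) with hnQ
  set gl : ℕ → ℝ := fun j => P.G.gl (P.N0 + j) with hgl
  set Rb : ℕ → ℝ := fun j => P.G.Rb (P.N0 + j) with hRb
  have hI : ST.Inner P.sys P.A Rb := by
    refine ⟨fun j => P.G.Rb_nonneg _, fun q V hq x y => ?_, fun q => ?_⟩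
    · exact P.RS_le hq x y
    · have h1 := het (P.cls q)
      have h2 : ((P.sys.inn q).card : ℝ) ≤ P.G.nQ (P.N0 + P.cls q) := by
        have h3 := ST.card_inn_lt (S := P.sys) q
        have h4 := P.card_Q_le q
        have h5 : ((P.sys.inn q).card : ℝ) ≤ ((P.sys.Q q).card : ℝ) := by
          exact_mod_cast (Nat.le_succ _).trans h3
        exact h5.trans h4
      have h3 := P.et_pos (P.cls q)
      have h4 := P.G.Rb_nonneg (P.N0 + P.cls q)
      refine le_trans ?_ h1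
      show P.et (P.cls q) * ((P.sys.inn q).card : ℝ) * P.G.Rb (P.N0 + P.cls q) ≤ _
      gcongr
  have hC : ST.Cls P.sys P.A nQ gl :=
    ⟨fun q => P.card_Q_le q, fun j => P.G.gl_pos _, fun q V hq => P.gg_ge hq⟩
  have hWa : ∀ N, ST.Wj P.G.nQ P.G.gl P.G.Rb (dg d) a N ≤
      ST.Wj P.G.nQ P.G.gl P.G.Rb (dg d) a0 N := by
    intro N
    unfold ST.Wj
    have h1 := P.G.nQ_nonneg N
    have h2 : 1 / a ≤ 1 / a0 := one_div_le_one_div_of_le ha0 haa
    have h3 : 0 < 1 / a := by positivity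
    have h4 : 0 < 1 / P.G.gl N := by have := P.G.gl_pos N; positivity
    gcongr
  have hterm : ∀ j, P.G.PP Cw (P.N0 + j) * ST.Wj nQ gl Rb (dg d) a j ≤
      P.G.PP Cw (j + P.N0) * ST.Wj P.G.nQ P.G.gl P.G.Rb (dg d) a0 (j + P.N0) := by
    intro j
    have h1 : ST.Wj nQ gl Rb (dg d) a j =
      ST.Wj P.G.nQ P.G.gl P.G.Rb (dg d) a (P.N0 + j) := rfl
    rw [h1, add_comm P.N0 j]
    exact mul_le_mul_of_nonneg_left (hWa _) (P.G.PP_nonneg hc _)
  have hterm0 : ∀ j, 0 ≤ P.G.PP Cw (P.N0 + j) * ST.Wj nQ gl Rb (dg d) a j := fun j =>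
    mul_nonneg (P.G.PP_nonneg hc _) (ST.Wj_nonneg (P.G.nQ_nonneg _))
  have hs : Summable fun j => P.G.PP Cw (P.N0 + j) * ST.Wj nQ gl Rb (dg d) a j :=
    Summable.of_nonneg_of_le hterm0 hterm hsum
  have h := ST.start (d := dg d) hgood P.geo hI hC ha ha1 m ht0 ht1
    (P := fun j => P.G.PP Cw (P.N0 + j))
    (mult := 1) P.mult_le (fun q => by rw [← hCw']; exact P.prob_le q) (fun j => P.G.PP_nonneg hc _)
    (fun j => P.G.nQ_nonneg _) zero_le_one hs
  refine h.trans ?_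
  rw [Fintype.card_fin]
  have h1 : 1 / a ^ 2 ≤ 1 / a0 ^ 2 :=
    one_div_le_one_div_of_le (by positivity) (by gcongr)
  have h2 : ∑' j, P.G.PP Cw (P.N0 + j) * ST.Wj nQ gl Rb (dg d) a j ≤ T :=
    hs.tsum_le_tsum hterm hsum
  gcongr

end Pool.Agent.Lib.MP_562b47_mp.RD
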